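import Pool.Agent.W763.PB.Stm

/-! Project PB, part F2b: square roots. -/

set_option autoImplicit false

open scoped InnerProductSpace

namespace Pool.Agent.W320.PB

open Pool.Agent.W763.PB

theorem f2b : S_F2b := by
  intro H _ _ _ U B hB hlow hcomm
  have hB0 : 0 ≤ B := (ContinuousLinearMap.nonneg_iff_isPositive B).2 hB
  obtain ⟨R, hR0, hRR, hRc⟩ : ∃ R : H →L[ℂ] H, 0 ≤ R ∧ R * R = B ∧
      ∀ W : H →L[ℂ] H, Commute B W → Commute R W := by
    refine ⟨CFC.sqrt B, CFC.sqrt_nonneg B, CFC.sqrt_mul_sqrt_self B hB0, fun W hW => ?_⟩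
    exact hW.cfcₙ_nnreal _
  have hRsa : IsSelfAdjoint R := .of_nonneg hR0
  have hRs : ∀ x y : H, ⟪R x, y⟫_ℂ = ⟪x, R y⟫_ℂ := by
    intro x y
    have h1 : ContinuousLinearMap.adjoint R = R := hRsa
    conv_lhs => rw [← h1]
    rw [ContinuousLinearMap.adjoint_inner_left]
  have hn : ∀ x, ‖R x‖ ^ 2 = (⟪B x, x⟫_ℂ).re := by
    intro x
    have h1 : B x = R (R x) := by rw [← hRR]; rfl
    rw [h1, hRs (R x) x]
    exact (inner_self_eq_norm_sq (𝕜 := ℂ) (R x)).symm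
  have hle : ∀ x, ‖x‖ ≤ ‖R x‖ := by
    intro x
    have h1 : ‖x‖ ^ 2 ≤ ‖R x‖ ^ 2 := (hlow x).trans_eq (hn x).symm
    exact le_of_sq_le_sq h1 (norm_nonneg _)
  refine ⟨R, ?_, ?_, hn⟩
  · have h1 : (LinearMap.range (R : H →ₗ[ℂ] H))ᗮ = ⊥ := by
      rw [Submodule.eq_bot_iff]
      intro x hx
      rw [Submodule.mem_orthogonal] at hx
      have h2 : ⟪R (R x), x⟫_ℂ = 0 := hx _ ⟨R x, rfl⟩
      rw [hRs] at h2
      have h3 : R x = 0 := inner_self_eq_zero.1 h2
      have h4 := hle x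
      rw [h3, norm_zero] at h4
      exact norm_le_zero_iff.1 h4
    have h2 := (Submodule.topologicalClosure_eq_top_iff).2 h1
    intro x
    have h3 : x ∈ (LinearMap.range (R : H →ₗ[ℂ] H)).topologicalClosure := by
      rw [h2]; trivial
    exact h3
  · intro x
    have h1 : Commute B ((U : H ≃L[ℂ] H) : H →L[ℂ] H) := by
      ext y
      exact hcomm y
    have h2 := hRc _ h1
    exact congrArg (fun T : H →L[ℂ] H => T x) h2.eq

end Pool.Agent.W320.PB
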